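import Pool.Agent.Helper18.RD.Stmts2
import Pool.Agent.Helper15.HallDiv

/-! Row ENB of the project RD. -/

set_option autoImplicit false

open Finset
open Pool.Agent.Helper18.RD

namespace Pool.Agent.Helper4.RD

/-- the relation of `G2` -/
def Rel (e n x : ℕ) : Prop := ∃ α : ℕ, 1 ≤ α ∧ n = x + e * α ^ 2

theorem rel_sqrt {e n x : ℕ} (he : 1 ≤ e) (h : Rel e n x) :
    1 ≤ Nat.sqrt ((n - x) / e) ∧ n = x + e * (Nat.sqrt ((n - x) / e)) ^ 2 := by
  obtain ⟨α, hα, rfl⟩ := h
  have h1 : (x + e * α ^ 2 - x) / e = α ^ 2 := by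
    rw [Nat.add_sub_cancel_left, Nat.mul_div_cancel_left _ (by omega)]
  have h2 : Nat.sqrt (α ^ 2) = α := by rw [sq]; exact Nat.sqrt_eq α
  rw [h1, h2]
  exact ⟨hα, rfl⟩

open Classical in
/-- the number of common left ends of two different points -/
theorem common_le (S : Finset ℕ) (e x y : ℕ) (he : 1 ≤ e) (hxy : x ≠ y) :
    (S.filter (fun n => Rel e n x ∧ Rel e n y)).card ≤ (((x : ℤ) - y).natAbs).divisors.card := by
  apply Finset.card_le_card_of_injOn
    (fun n => ((Nat.sqrt ((n - x) / e) : ℤ) - (Nat.sqrt ((n - y) / e) : ℤ)).natAbs)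
  · intro n hn
    have hn' := (Finset.mem_filter.1 (Finset.mem_coe.1 hn)).2
    obtain ⟨h1, h2⟩ := rel_sqrt he hn'.1
    obtain ⟨h3, h4⟩ := rel_sqrt he hn'.2
    set a := Nat.sqrt ((n - x) / e)
    set b := Nat.sqrt ((n - y) / e)
    show _ ∈ (((((x : ℤ) - y).natAbs).divisors : Finset ℕ) : Set ℕ)
    rw [Finset.mem_coe, Nat.mem_divisors]
    refine ⟨?_, by omega⟩
    rw [Int.natAbs_dvd_natAbs]
    refine ⟨-(e * ((a : ℤ) + b)), ?_⟩
    have h5 : (n : ℤ) = x + e * a ^ 2 := by exact_mod_cast h2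
    have h6 : (n : ℤ) = y + e * b ^ 2 := by exact_mod_cast h4
    linear_combination h6 - h5
  · intro n hn n' hn' hnn
    have hm := (Finset.mem_filter.1 (Finset.mem_coe.1 hn)).2
    have hm' := (Finset.mem_filter.1 (Finset.mem_coe.1 hn')).2
    obtain ⟨h1, h2⟩ := rel_sqrt he hm.1
    obtain ⟨h3, h4⟩ := rel_sqrt he hm.2
    obtain ⟨h1', h2'⟩ := rel_sqrt he hm'.1
    obtain ⟨h3', h4'⟩ := rel_sqrt he hm'.2
    simp only at hnn
    set a := Nat.sqrt ((n - x) / e)
    set b := Nat.sqrt ((n - y) / e)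
    set a' := Nat.sqrt ((n' - x) / e)
    set b' := Nat.sqrt ((n' - y) / e)
    have g1 : (n : ℤ) = x + e * a ^ 2 := by exact_mod_cast h2
    have g2 : (n : ℤ) = y + e * b ^ 2 := by exact_mod_cast h4
    have g3 : (n' : ℤ) = x + e * a' ^ 2 := by exact_mod_cast h2'
    have g4 : (n' : ℤ) = y + e * b' ^ 2 := by exact_mod_cast h4'
    have hxy' : (x : ℤ) ≠ y := by exact_mod_cast hxy
    have he' : (e : ℤ) ≠ 0 := by
      have : e ≠ 0 := by omega
      exact_mod_cast this
    have k1 : (e : ℤ) * (((a : ℤ) - b) * (a + b)) = y - x := by linear_combination g2 - g1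
    have k2 : (e : ℤ) * (((a' : ℤ) - b') * (a' + b')) = y - x := by linear_combination g4 - g3
    have k3 : ((a : ℤ) - b) * (a + b) = ((a' : ℤ) - b') * (a' + b') :=
      mul_left_cancel₀ he' (k1.trans k2.symm)
    have hab : (a : ℤ) - b ≠ 0 := by
      intro h0
      rw [h0] at k1
      simp at k1
      exact hxy' (by linarith)
    have hab' : (a' : ℤ) - b' ≠ 0 := by
      intro h0
      rw [h0] at k2
      simp at k2
      exact hxy' (by linarith)
    have ha1 : (1 : ℤ) ≤ a := by exact_mod_cast h1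
    have ha2 : (1 : ℤ) ≤ a' := by exact_mod_cast h1'
    have hb1 : (1 : ℤ) ≤ b := by exact_mod_cast h3
    have hb2 : (1 : ℤ) ≤ b' := by exact_mod_cast h3'
    have ha : (a : ℤ) = a' := by
      rcases Int.natAbs_eq_natAbs_iff.1 hnn with h | h
      · rw [h] at k3
        have := mul_left_cancel₀ hab' k3
        linarith
      · exfalso
        rw [h] at k3
        have k4 : ((a' : ℤ) - b') * ((a : ℤ) + b + (a' + b')) = 0 := by linear_combination -k3
        rcases mul_eq_zero.1 k4 with h5 | h5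
        · exact hab' h5
        · linarith
    have : (n : ℤ) = n' := by rw [g1, g3, ha]
    exact_mod_cast this

open Classical in
theorem st_ENB : ST_ENB := by
  intro ε hε
  obtain ⟨C, hC1, hC⟩ := Pool.Agent.Helper15.Hall.card_divisors_le_rpow ε hε
  refine ⟨1 + C, by linarith, ?_⟩
  intro N e S hN he hS
  set w : ℕ → ℕ → ℝ := fun n x => if Rel e n x then 1 else 0 with hw
  have hw0 : ∀ n x, 0 ≤ w n x := by
    intro n x; simp only [hw]; split_ifs <;> norm_num
  have hw1 : ∀ n x, w n x ≤ 1 := by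
    intro n x; simp only [hw]; split_ifs <;> norm_num
  have hcard : ((G2 S e).card : ℝ) = ∑ n ∈ S, ∑ x ∈ S, w n x := by
    unfold G2
    rw [Finset.card_filter, Finset.sum_product]
    push_cast
    rfl
  have hN1 : (1 : ℝ) ≤ (N : ℝ) ^ ε := Real.one_le_rpow (by exact_mod_cast hN) hε.le
  have hoff : ∀ x ∈ S, ∀ y ∈ S, x ≠ y → ∑ n ∈ S, w n x * w n y ≤ C * (N : ℝ) ^ ε := by
    intro x hx y hy hxy
    have h1 : ∑ n ∈ S, w n x * w n y =
        ((S.filter (fun n => Rel e n x ∧ Rel e n y)).card : ℝ) := by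
      rw [Finset.card_filter]
      push_cast
      apply Finset.sum_congr rfl
      intro n _
      simp only [hw]
      by_cases h1 : Rel e n x
      · by_cases h2 : Rel e n y
        · simp [h1, h2]
        · simp [h1, h2]
      · simp [h1]
    rw [h1]
    have h2 := common_le S e x y he hxy
    have hx' := Finset.mem_range.1 (hS hx)
    have hy' := Finset.mem_range.1 (hS hy)
    have h3 : ((x : ℤ) - y).natAbs ≠ 0 := by omega
    have h4 : ((x : ℤ) - y).natAbs ≤ N := by omega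
    calc ((S.filter (fun n => Rel e n x ∧ Rel e n y)).card : ℝ)
        ≤ ((((x : ℤ) - y).natAbs).divisors.card : ℝ) := by exact_mod_cast h2
      _ ≤ C * ((((x : ℤ) - y).natAbs : ℕ) : ℝ) ^ ε := hC _ h3
      _ ≤ C * (N : ℝ) ^ ε := by
        apply mul_le_mul_of_nonneg_left _ (by linarith)
        exact Real.rpow_le_rpow (Nat.cast_nonneg _) (by exact_mod_cast h4) hε.le
  have hdiag : ∀ x ∈ S, ∑ n ∈ S, w n x * w n x ≤ S.card := by
    intro x _
    calc ∑ n ∈ S, w n x * w n x ≤ ∑ n ∈ S, (1 : ℝ) :=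
          Finset.sum_le_sum fun n _ => mul_le_one₀ (hw1 n x) (hw0 n x) (hw1 n x)
      _ = S.card := by simp
  have hsum : ∑ n ∈ S, (∑ x ∈ S, w n x) ^ 2 ≤ (S.card : ℝ) ^ 2 * (1 + C * (N : ℝ) ^ ε) := by
    have h1 : ∑ n ∈ S, (∑ x ∈ S, w n x) ^ 2 = ∑ x ∈ S, ∑ y ∈ S, ∑ n ∈ S, w n x * w n y := by
      have h2 : ∀ n ∈ S, (∑ x ∈ S, w n x) ^ 2 = ∑ x ∈ S, ∑ y ∈ S, w n x * w n y := by
        intro n _
        rw [sq, Finset.sum_mul_sum]
      rw [Finset.sum_congr rfl h2, Finset.sum_comm]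
      apply Finset.sum_congr rfl
      intro x _
      rw [Finset.sum_comm]
    rw [h1]
    calc ∑ x ∈ S, ∑ y ∈ S, ∑ n ∈ S, w n x * w n y
        ≤ ∑ x ∈ S, ((S.card : ℝ) + S.card * (C * (N : ℝ) ^ ε)) := by
          apply Finset.sum_le_sum
          intro x hx
          have hsplit : ∑ y ∈ S, ∑ n ∈ S, w n x * w n y ≤
              ∑ y ∈ S, ((if x = y then (S.card : ℝ) else 0) + C * (N : ℝ) ^ ε) := by
            apply Finset.sum_le_sum
            intro y hy
            have hCN : 0 ≤ C * (N : ℝ) ^ ε := by positivity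
            by_cases hxy : x = y
            · rw [if_pos hxy, ← hxy]
              have := hdiag x hx
              linarith
            · rw [if_neg hxy, zero_add]
              exact hoff x hx y hy hxy
          refine le_trans hsplit (le_of_eq ?_)
          rw [Finset.sum_add_distrib, Finset.sum_ite_eq, if_pos hx, Finset.sum_const, nsmul_eq_mul]
      _ = (S.card : ℝ) ^ 2 * (1 + C * (N : ℝ) ^ ε) := by
          rw [Finset.sum_const, nsmul_eq_mul]; ring
  have hCS : (∑ n ∈ S, ∑ x ∈ S, w n x) ^ 2 ≤ (S.card : ℝ) * ∑ n ∈ S, (∑ x ∈ S, w n x) ^ 2 :=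
    sq_sum_le_card_mul_sum_sq
  rw [hcard]
  have hS0 : (0 : ℝ) ≤ S.card := Nat.cast_nonneg _
  calc (∑ n ∈ S, ∑ x ∈ S, w n x) ^ 2 ≤ (S.card : ℝ) * ∑ n ∈ S, (∑ x ∈ S, w n x) ^ 2 := hCS
    _ ≤ (S.card : ℝ) * ((S.card : ℝ) ^ 2 * (1 + C * (N : ℝ) ^ ε)) :=
        mul_le_mul_of_nonneg_left hsum hS0
    _ = (S.card : ℝ) ^ 3 * (1 + C * (N : ℝ) ^ ε) := by ring
    _ ≤ (S.card : ℝ) ^ 3 * ((1 + C) * (N : ℝ) ^ ε) := by
        apply mul_le_mul_of_nonneg_left _ (by positivity)
        nlinarith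
    _ = (1 + C) * (S.card : ℝ) ^ 3 * (N : ℝ) ^ ε := by ring

end Pool.Agent.Helper4.RD
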