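import Pool.Agent.Helper18.RD.Stmts4

/-! Row END4 of the project RD (from ENA and ENT). -/

set_option autoImplicit false

open Finset
open Pool.Agent.Helper18.RD

namespace Pool.Agent.Helper4.RD

theorem st_END4 (hENA : ST_ENA) (hENT : ST_ENT) : ST_END4 := by
  intro ε hε
  obtain ⟨C, hC, h⟩ := hENT ε hε
  refine ⟨C, hC, ?_⟩
  intro N S c d k hN hS hk hcd
  have hR : (0 : ℝ) ≤ C * (S.card : ℝ) ^ 5 * (N : ℝ) ^ ε := by positivity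
  have h1 := hENA N S c d k (Real.sqrt (C * (S.card : ℝ) ^ 5 * (N : ℝ) ^ ε)) hN hS hk hcd (by
    intro z B hz hB hB'
    exact Real.le_sqrt_of_sq_le (h N z B S hN hz hB hB' hS))
  calc ((MM S c d).card : ℝ) ^ 2
      ≤ ((S.card : ℝ) ^ 5 * Real.sqrt (C * (S.card : ℝ) ^ 5 * (N : ℝ) ^ ε)) ^ 2 :=
        pow_le_pow_left₀ (Nat.cast_nonneg _) h1 2
    _ = (S.card : ℝ) ^ 10 * (Real.sqrt (C * (S.card : ℝ) ^ 5 * (N : ℝ) ^ ε)) ^ 2 := by ring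
    _ = (S.card : ℝ) ^ 10 * (C * (S.card : ℝ) ^ 5 * (N : ℝ) ^ ε) := by rw [Real.sq_sqrt hR]
    _ = C * (S.card : ℝ) ^ 15 * (N : ℝ) ^ ε := by ring

end Pool.Agent.Helper4.RD
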