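import Pool.Agent.Helper4.RD.LLA

/-! Row LLB of the project RD. -/

set_option autoImplicit false

open Finset
open Pool.Agent.Helper18.RD

namespace Pool.Agent.Helper4.RD

/-- the local weight of the sieve -/
noncomputable def gp (p : ℕ) : ℝ := ((p : ℝ) - 1) / (p + 1)

noncomputable def be (P : Finset ℕ) (m : ℕ) : ℝ :=
  ∏ p ∈ P, (if p ∣ m then (if p ^ 2 ∣ m then 0 else gp p) else 1)

theorem gp_nonneg {p : ℕ} (hp : 1 ≤ p) : 0 ≤ gp p := by
  have : (1 : ℝ) ≤ p := by exact_mod_cast hp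
  unfold gp
  exact div_nonneg (by linarith) (by linarith)

theorem be_nonneg {P : Finset ℕ} (hP : ∀ r ∈ P, r.Prime) (m : ℕ) : 0 ≤ be P m :=
  Finset.prod_nonneg fun p hp => by
    split_ifs
    · exact le_refl _
    · exact gp_nonneg (hP p hp).one_lt.le
    · norm_num

theorem be_mul {P : Finset ℕ} {p : ℕ} (hP : ∀ r ∈ P, r.Prime) (hp : p.Prime) (hpP : p ∉ P)
    (m : ℕ) : be P (p * m) = be P m := by
  unfold be
  apply Finset.prod_congr rfl
  intro r hr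
  have hcop : Nat.Coprime r p := by
    rw [Nat.coprime_primes (hP r hr) hp]
    intro h
    exact hpP (h ▸ hr)
  have h1 : r ∣ p * m ↔ r ∣ m := hcop.dvd_mul_left
  have h2 : r ^ 2 ∣ p * m ↔ r ^ 2 ∣ m := (hcop.pow_left 2).dvd_mul_left
  simp only [h1, h2]

/-- the weight together with the coprimality condition, divided by `m` -/
noncomputable def ff (q : ℕ) (P : Finset ℕ) (m : ℕ) : ℝ :=
  (if Nat.Coprime m (2 * q) then be P m else 0) / m

theorem ff_nonneg (q : ℕ) {P : Finset ℕ} (hP : ∀ r ∈ P, r.Prime) (m : ℕ) : 0 ≤ ff q P m := by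
  unfold ff
  apply div_nonneg _ (Nat.cast_nonneg _)
  split_ifs
  · exact be_nonneg hP m
  · exact le_refl _

theorem ff_mul (q : ℕ) {P : Finset ℕ} {p : ℕ} (hP : ∀ r ∈ P, r.Prime) (hp : p.Prime)
    (hpP : p ∉ P) (hpq : Nat.Coprime p (2 * q)) (m : ℕ) :
    ff q P (p * m) = 1 / (p : ℝ) * ff q P m := by
  unfold ff
  have h1 : Nat.Coprime (p * m) (2 * q) ↔ Nat.Coprime m (2 * q) := by
    rw [Nat.coprime_mul_iff_left]
    exact ⟨fun h => h.2, fun h => ⟨hpq, h⟩⟩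
  rw [be_mul hP hp hpP]
  simp only [h1]
  push_cast
  rw [one_div, mul_comm (p : ℝ) m, ← div_div, div_eq_inv_mul _ (p : ℝ)]

noncomputable def BB (q : ℕ) (P : Finset ℕ) (x : ℕ) : ℝ := ∑ m ∈ Icc 1 x, ff q P m

/-- the part without the multiples of `p` -/
noncomputable def bb (q : ℕ) (P : Finset ℕ) (p x : ℕ) : ℝ :=
  ∑ m ∈ Icc 1 x, (if p ∣ m then 0 else ff q P m)

theorem BB_mono (q : ℕ) {P : Finset ℕ} (hP : ∀ r ∈ P, r.Prime) {x y : ℕ} (h : x ≤ y) :
    BB q P x ≤ BB q P y :=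
  Finset.sum_le_sum_of_subset_of_nonneg (Finset.Icc_subset_Icc_right h)
    fun m _ _ => ff_nonneg q hP m

theorem bb_mono (q : ℕ) {P : Finset ℕ} (hP : ∀ r ∈ P, r.Prime) (p : ℕ) {x y : ℕ} (h : x ≤ y) :
    bb q P p x ≤ bb q P p y :=
  Finset.sum_le_sum_of_subset_of_nonneg (Finset.Icc_subset_Icc_right h)
    fun m _ _ => by
      split_ifs
      · exact le_refl _
      · exact ff_nonneg q hP m

theorem bb_nonneg (q : ℕ) {P : Finset ℕ} (hP : ∀ r ∈ P, r.Prime) (p x : ℕ) :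
    0 ≤ bb q P p x :=
  Finset.sum_nonneg fun m _ => by
      split_ifs
      · exact le_refl _
      · exact ff_nonneg q hP m

theorem BB_eq (q : ℕ) {P : Finset ℕ} {p : ℕ} (hP : ∀ r ∈ P, r.Prime) (hp : p.Prime)
    (hpP : p ∉ P) (hpq : Nat.Coprime p (2 * q)) (x : ℕ) :
    BB q P x = bb q P p x + 1 / (p : ℝ) * BB q P (x / p) := by
  have h := sum_split p x hp.one_lt.le (ff q P) (ff q P)
  have h1 : ∑ m ∈ Icc 1 x, (if p ∣ m then ff q P m else ff q P m) = BB q P x := by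
    unfold BB
    apply Finset.sum_congr rfl
    intro m _
    split_ifs <;> rfl
  rw [h1] at h
  rw [h]
  unfold bb BB
  rw [Finset.mul_sum]
  congr 1
  exact Finset.sum_congr rfl fun m _ => ff_mul q hP hp hpP hpq m

theorem BB_insert (q : ℕ) {P : Finset ℕ} {p : ℕ} (hP : ∀ r ∈ P, r.Prime) (hp : p.Prime)
    (hpP : p ∉ P) (hpq : Nat.Coprime p (2 * q)) (x : ℕ) :
    BB q (insert p P) x = bb q P p x + gp p / (p : ℝ) * bb q P p (x / p) := by
  have h := sum_split p x hp.one_lt.le (ff q P) (fun m => (if p ^ 2 ∣ m then 0 else gp p) * ff q P m)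
  have h1 : ∑ m ∈ Icc 1 x, (if p ∣ m then (if p ^ 2 ∣ m then 0 else gp p) * ff q P m
      else ff q P m) = BB q (insert p P) x := by
    unfold BB
    apply Finset.sum_congr rfl
    intro m _
    unfold ff be
    rw [Finset.prod_insert hpP]
    split_ifs <;> ring
  rw [h1] at h
  rw [h]
  unfold bb
  rw [Finset.mul_sum]
  congr 1
  apply Finset.sum_congr rfl
  intro m _
  have h2 : p ^ 2 ∣ p * m ↔ p ∣ m := by
    rw [sq]
    exact Nat.mul_dvd_mul_iff_left hp.pos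
  rw [ff_mul q hP hp hpP hpq]
  simp only [h2]
  split_ifs
  · simp
  · ring

theorem BB_step (q : ℕ) {P : Finset ℕ} {p : ℕ} (hP : ∀ r ∈ P, r.Prime) (hp : p.Prime)
    (hp3 : 3 ≤ p) (hpP : p ∉ P) (hpq : Nat.Coprime p (2 * q)) (y : ℕ) :
    BB q P y ≤ (1 + 4 / (p : ℝ) ^ 2) * BB q (insert p P) y := by
  have hp0 : (3 : ℝ) ≤ p := by exact_mod_cast hp3
  have hpos : (0 : ℝ) < p := by linarith
  have e1 := BB_eq q hP hp hpP hpq y
  have e2 := BB_eq q hP hp hpP hpq (y / p)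
  have e3 := BB_insert q hP hp hpP hpq y
  have m1 : BB q P (y / p / p) ≤ BB q P y :=
    BB_mono q hP ((Nat.div_le_self _ _).trans (Nat.div_le_self _ _))
  have m2 : bb q P p (y / p) ≤ bb q P p y := bb_mono q hP p (Nat.div_le_self _ _)
  have n1 := bb_nonneg q hP p y
  have n2 := bb_nonneg q hP p (y / p)
  set B := BB q P y
  set b1 := bb q P p y
  set b2 := bb q P p (y / p)
  set B' := BB q (insert p P) y
  have hg : gp p = 1 - 2 / ((p : ℝ) + 1) := by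
    unfold gp
    field_simp
    ring
  have hB' : 0 ≤ B' := by
    rw [e3]
    have := gp_nonneg hp.one_lt.le
    positivity
  -- `(1 - 1/p²) B ≤ b1 + b2 / p`
  have s1 : (1 - 1 / (p : ℝ) ^ 2) * B ≤ b1 + 1 / (p : ℝ) * b2 := by
    have h1 : 1 / (p : ℝ) * BB q P (y / p) = 1 / (p : ℝ) * b2 +
        1 / (p : ℝ) ^ 2 * BB q P (y / p / p) := by
      rw [e2]
      field_simp
    have h2 : 1 / (p : ℝ) ^ 2 * BB q P (y / p / p) ≤ 1 / (p : ℝ) ^ 2 * B :=
      mul_le_mul_of_nonneg_left m1 (by positivity)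
    rw [h1] at e1
    linarith
  -- `b1 + b2 / p ≤ (1 + 2/(p(p+1))) B'`
  have s2 : b1 + 1 / (p : ℝ) * b2 ≤ (1 + 2 / (p * ((p : ℝ) + 1))) * B' := by
    have h1 : b1 + 1 / (p : ℝ) * b2 = B' + 2 / (p * ((p : ℝ) + 1)) * b2 := by
      rw [e3, hg]
      field_simp
      ring
    have h2 : b2 ≤ B' := by
      rw [e3]
      have h3 : 0 ≤ gp p / (p : ℝ) * b2 :=
        mul_nonneg (div_nonneg (gp_nonneg hp.one_lt.le) hpos.le) n2
      linarith
    have h4 : 2 / (p * ((p : ℝ) + 1)) * b2 ≤ 2 / (p * ((p : ℝ) + 1)) * B' :=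
      mul_le_mul_of_nonneg_left h2 (by positivity)
    rw [h1]
    linarith
  have s3 : 1 + 2 / (p * ((p : ℝ) + 1)) ≤ (1 - 1 / (p : ℝ) ^ 2) * (1 + 4 / (p : ℝ) ^ 2) := by
    have h1 : 2 / (p * ((p : ℝ) + 1)) ≤ 2 / (p : ℝ) ^ 2 := by
      apply div_le_div_of_nonneg_left (by norm_num) (by positivity)
      nlinarith
    have h2 : 1 / (p : ℝ) ^ 2 ≤ 1 / 9 := by
      apply div_le_div_of_nonneg_left (by norm_num) (by norm_num)
      nlinarith
    have h3 : 2 / (p : ℝ) ^ 2 = 2 * (1 / (p : ℝ) ^ 2) := by ring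
    have h4 : 4 / (p : ℝ) ^ 2 = 4 * (1 / (p : ℝ) ^ 2) := by ring
    have h5 : 0 < 1 / (p : ℝ) ^ 2 := by positivity
    rw [h4]
    rw [h3] at h1
    nlinarith
  have s4 : (0 : ℝ) < 1 - 1 / (p : ℝ) ^ 2 := by
    have h2 : 1 / (p : ℝ) ^ 2 ≤ 1 / 9 := by
      apply div_le_div_of_nonneg_left (by norm_num) (by norm_num)
      nlinarith
    linarith
  have s5 : (1 - 1 / (p : ℝ) ^ 2) * B ≤ (1 - 1 / (p : ℝ) ^ 2) * ((1 + 4 / (p : ℝ) ^ 2) * B') := by
    calc (1 - 1 / (p : ℝ) ^ 2) * B ≤ (1 + 2 / (p * ((p : ℝ) + 1))) * B' := s1.trans s2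
      _ ≤ ((1 - 1 / (p : ℝ) ^ 2) * (1 + 4 / (p : ℝ) ^ 2)) * B' :=
        mul_le_mul_of_nonneg_right s3 hB'
      _ = _ := by ring
  exact le_of_mul_le_mul_left s5 s4

theorem BB_all (q : ℕ) (P : Finset ℕ) (hP : ∀ r ∈ P, r.Prime ∧ 3 ≤ r ∧ Nat.Coprime r (2 * q))
    (y : ℕ) : BB q ∅ y ≤ (∏ p ∈ P, (1 + 4 / (p : ℝ) ^ 2)) * BB q P y := by
  induction P using Finset.induction_on with
  | empty => simp
  | insert p P hpP ih =>
    have hp := hP p (Finset.mem_insert_self _ _)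
    have hP' : ∀ r ∈ P, r.Prime ∧ 3 ≤ r ∧ Nat.Coprime r (2 * q) :=
      fun r hr => hP r (Finset.mem_insert_of_mem hr)
    rw [Finset.prod_insert hpP]
    have h1 : (0 : ℝ) ≤ ∏ p ∈ P, (1 + 4 / (p : ℝ) ^ 2) :=
      Finset.prod_nonneg fun p _ => by positivity
    calc BB q ∅ y ≤ (∏ p ∈ P, (1 + 4 / (p : ℝ) ^ 2)) * BB q P y := ih hP'
      _ ≤ (∏ p ∈ P, (1 + 4 / (p : ℝ) ^ 2)) * ((1 + 4 / (p : ℝ) ^ 2) * BB q (insert p P) y) :=
        mul_le_mul_of_nonneg_left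
          (BB_step q (fun r hr => (hP' r hr).1) hp.1 hp.2.1 hpP hp.2.2 y) h1
      _ = _ := by ring

/-- the primes up to `y` which do not divide `2 q` -/
def PQ (q y : ℕ) : Finset ℕ := (Icc 1 y).filter (fun p => p.Prime ∧ Nat.Coprime p (2 * q))

theorem prod_upper (q y : ℕ) : ∏ p ∈ PQ q y, (1 + 4 / (p : ℝ) ^ 2) ≤ Real.exp 4 := by
  have h1 : ∏ p ∈ PQ q y, (1 + 4 / (p : ℝ) ^ 2) ≤ ∏ p ∈ PQ q y, Real.exp (4 / (p : ℝ) ^ 2) := by
    apply Finset.prod_le_prod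
    · intro p _
      positivity
    · intro p _
      rw [add_comm]
      exact Real.add_one_le_exp _
  refine h1.trans ?_
  rw [← Real.exp_sum]
  apply Real.exp_le_exp.2
  have h2 : ∑ p ∈ PQ q y, 4 / (p : ℝ) ^ 2 ≤ ∑ p ∈ Ioc 1 (y + 1), 4 / (p : ℝ) ^ 2 := by
    apply Finset.sum_le_sum_of_subset_of_nonneg
    · intro p hp
      obtain ⟨h3, h4, _⟩ := Finset.mem_filter.1 hp
      rw [Finset.mem_Icc] at h3
      rw [Finset.mem_Ioc]
      exact ⟨h4.one_lt, by omega⟩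
    · intro p _ _
      positivity
  have h3 : ∑ p ∈ Ioc 1 (y + 1), ((p : ℝ) ^ 2)⁻¹ ≤ ((1 : ℕ) : ℝ)⁻¹ - ((y + 1 : ℕ) : ℝ)⁻¹ :=
    sum_Ioc_inv_sq_le_sub (by norm_num) (by omega)
  have h4 : ∑ p ∈ Ioc 1 (y + 1), 4 / (p : ℝ) ^ 2 = 4 * ∑ p ∈ Ioc 1 (y + 1), ((p : ℝ) ^ 2)⁻¹ := by
    rw [Finset.mul_sum]
    apply Finset.sum_congr rfl
    intro p _
    rw [div_eq_mul_inv]
  have h5 : (0 : ℝ) ≤ ((y + 1 : ℕ) : ℝ)⁻¹ := by positivity
  rw [h4] at h2
  have h6 : (((1 : ℕ) : ℝ))⁻¹ = 1 := by simp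
  rw [h6] at h3
  linarith

theorem be_final (q y m : ℕ) (hm : m ∈ Icc 1 y) (hc : Nat.Coprime m (2 * q)) :
    be (PQ q y) m = if Squarefree m then gg m else 0 := by
  rw [Finset.mem_Icc] at hm
  have hmem : ∀ p, p.Prime → p ∣ m → p ∈ PQ q y := by
    intro p hp hpm
    unfold PQ
    rw [Finset.mem_filter, Finset.mem_Icc]
    exact ⟨⟨hp.one_lt.le, (Nat.le_of_dvd (by omega) hpm).trans hm.2⟩, hp,
      Nat.Coprime.coprime_dvd_left hpm hc⟩
  by_cases hsq : Squarefree m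
  · rw [if_pos hsq]
    unfold be gg
    have h1 : m.primeFactors ⊆ PQ q y := by
      intro p hp
      exact hmem p (Nat.prime_of_mem_primeFactors hp) (Nat.dvd_of_mem_primeFactors hp)
    rw [← Finset.prod_subset h1]
    · apply Finset.prod_congr rfl
      intro p hp
      rw [if_pos (Nat.dvd_of_mem_primeFactors hp), if_neg]
      · rfl
      · intro h
        have hpp := Nat.prime_of_mem_primeFactors hp
        rw [sq] at h
        exact hpp.one_lt.ne' (Nat.isUnit_iff.1 (hsq p h))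
    · intro p hp hpm
      have hpp : p.Prime := (Finset.mem_filter.1 hp).2.1
      rw [if_neg]
      intro h
      exact hpm (Nat.mem_primeFactors.2 ⟨hpp, h, by omega⟩)
  · rw [if_neg hsq]
    rw [Nat.squarefree_iff_prime_squarefree] at hsq
    push Not at hsq
    obtain ⟨p, hp, hpp⟩ := hsq
    unfold be
    apply Finset.prod_eq_zero (i := p) (hmem p hp (dvd_trans (dvd_mul_right p p) hpp))
    rw [if_pos (dvd_trans (dvd_mul_right p p) hpp), if_pos (by rw [sq]; exact hpp)]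

theorem st_LLB : ST_LLB := by
  refine ⟨Real.exp 4, Real.exp_pos _, ?_⟩
  intro q y
  have h1 : BB q ∅ y = ∑ m ∈ (Icc 1 y).filter (fun m => Nat.Coprime m (2 * q)), 1 / (m : ℝ) := by
    unfold BB ff be
    rw [Finset.sum_filter]
    apply Finset.sum_congr rfl
    intro m _
    split_ifs <;> simp
  have h2 : BB q (PQ q y) y = ∑ r ∈ RR q y, gg r / (r : ℝ) := by
    unfold BB ff RR
    rw [Finset.sum_filter]
    apply Finset.sum_congr rfl
    intro m hm
    by_cases hc : Nat.Coprime m (2 * q)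
    · rw [if_pos hc, be_final q y m hm hc]
      by_cases hs : Squarefree m
      · rw [if_pos hs, if_pos ⟨hs, hc⟩]
      · rw [if_neg hs, if_neg (fun h => hs h.1), zero_div]
    · rw [if_neg hc, if_neg (fun h => hc h.2), zero_div]
  have h3 := BB_all q (PQ q y) (by
    intro r hr
    obtain ⟨_, h4, h5⟩ := Finset.mem_filter.1 hr
    refine ⟨h4, ?_, h5⟩
    have h6 := h4.two_le
    have h7 : r ≠ 2 := by
      rintro rfl
      rw [Nat.coprime_mul_iff_right] at h5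
      exact absurd h5.1 (by norm_num)
    omega) y
  have h4 : 0 ≤ BB q (PQ q y) y := Finset.sum_nonneg fun m _ =>
    ff_nonneg q (fun r hr => (Finset.mem_filter.1 hr).2.1) m
  rw [h1] at h3
  rw [h2] at h3 h4
  exact h3.trans (mul_le_mul_of_nonneg_right (prod_upper q y) h4)

end Pool.Agent.Helper4.RD
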