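import Pool.Agent.Helper18.RD.Stmts3

/-! Rows LLA and LLB of the project RD: both by adding one prime after the other. -/

set_option autoImplicit false

open Finset
open Pool.Agent.Helper18.RD

namespace Pool.Agent.Helper4.RD

/-- the multiples of `p` up to `x` -/
theorem sum_split (p x : ℕ) (hp : 1 ≤ p) (F G : ℕ → ℝ) :
    ∑ m ∈ Icc 1 x, (if p ∣ m then G m else F m) =
      ∑ m ∈ Icc 1 x, (if p ∣ m then 0 else F m) + ∑ m ∈ Icc 1 (x / p), G (p * m) := by
  have h1 : ∑ m ∈ Icc 1 (x / p), G (p * m) = ∑ m ∈ Icc 1 x, (if p ∣ m then G m else 0) := by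
    rw [← Finset.sum_filter]
    symm
    apply Finset.sum_nbij' (fun m => m / p) (fun m => p * m)
    · intro m hm
      rw [Finset.mem_filter, Finset.mem_Icc] at hm
      obtain ⟨⟨h1, h2⟩, k, rfl⟩ := hm
      rw [Finset.mem_Icc, Nat.mul_div_cancel_left _ (by omega)]
      refine ⟨?_, ?_⟩
      · rcases Nat.eq_zero_or_pos k with h | h
        · subst h; omega
        · exact h
      · rw [Nat.le_div_iff_mul_le (by omega), mul_comm]
        exact h2
    · intro m hm
      rw [Finset.mem_Icc] at hm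
      rw [Finset.mem_filter, Finset.mem_Icc]
      refine ⟨⟨?_, ?_⟩, dvd_mul_right _ _⟩
      · exact Nat.succ_le_of_lt (Nat.mul_pos (by omega) (by omega))
      · calc p * m ≤ p * (x / p) := Nat.mul_le_mul_left _ hm.2
          _ ≤ x := Nat.mul_div_le _ _
    · intro m hm
      exact Nat.mul_div_cancel' (Finset.mem_filter.1 hm).2
    · intro m hm
      exact Nat.mul_div_cancel_left _ (by omega)
    · intro m hm
      rw [Nat.mul_div_cancel' (Finset.mem_filter.1 hm).2]
  rw [h1, ← Finset.sum_add_distrib]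
  apply Finset.sum_congr rfl
  intro m _
  split_ifs <;> simp

/-! ### LLA -/

/-- `1` if no element of `P` divides `m` -/
noncomputable def al (P : Finset ℕ) (m : ℕ) : ℝ := ∏ p ∈ P, (if p ∣ m then 0 else 1)

theorem al_nonneg (P : Finset ℕ) (m : ℕ) : 0 ≤ al P m :=
  Finset.prod_nonneg fun p _ => by split_ifs <;> norm_num

theorem al_mul {P : Finset ℕ} {p : ℕ} (hP : ∀ r ∈ P, r.Prime) (hp : p.Prime) (hpP : p ∉ P)
    (m : ℕ) : al P (p * m) = al P m := by
  unfold al
  apply Finset.prod_congr rfl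
  intro r hr
  have h1 : r ∣ p * m ↔ r ∣ m := by
    rw [(hP r hr).dvd_mul]
    constructor
    · rintro (h | h)
      · exfalso
        rw [(Nat.prime_dvd_prime_iff_eq (hP r hr) hp)] at h
        exact hpP (h ▸ hr)
      · exact h
    · exact Or.inr
  simp only [h1]

noncomputable def AA (P : Finset ℕ) (x : ℕ) : ℝ := ∑ m ∈ Icc 1 x, al P m / m

theorem AA_mono (P : Finset ℕ) {x y : ℕ} (h : x ≤ y) : AA P x ≤ AA P y := by
  apply Finset.sum_le_sum_of_subset_of_nonneg
  · exact Finset.Icc_subset_Icc_right h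
  · intro m _ _
    exact div_nonneg (al_nonneg P m) (Nat.cast_nonneg _)

theorem AA_step {P : Finset ℕ} {p : ℕ} (hP : ∀ r ∈ P, r.Prime) (hp : p.Prime) (hpP : p ∉ P)
    (y : ℕ) : (1 - 1 / (p : ℝ)) * AA P y ≤ AA (insert p P) y := by
  have hp0 : (0 : ℝ) < p := by exact_mod_cast hp.pos
  have h1 : AA P y = AA (insert p P) y + 1 / (p : ℝ) * AA P (y / p) := by
    have h2 := sum_split p y hp.one_lt.le (fun m => al P m / m) (fun m => al P m / m)
    have h3 : ∑ m ∈ Icc 1 y, (if p ∣ m then al P m / m else al P m / m) = AA P y := by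
      unfold AA
      apply Finset.sum_congr rfl
      intro m _
      split_ifs <;> rfl
    have h4 : ∑ m ∈ Icc 1 y, (if p ∣ m then 0 else al P m / m) = AA (insert p P) y := by
      unfold AA
      apply Finset.sum_congr rfl
      intro m _
      unfold al
      rw [Finset.prod_insert hpP]
      split_ifs <;> simp
    have h5 : ∑ m ∈ Icc 1 (y / p), al P (p * m) / ((p * m : ℕ) : ℝ) =
        1 / (p : ℝ) * AA P (y / p) := by
      unfold AA
      rw [Finset.mul_sum]
      apply Finset.sum_congr rfl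
      intro m hm
      rw [al_mul hP hp hpP]
      push_cast
      rw [one_div, mul_comm (p : ℝ) m, ← div_div, div_eq_inv_mul (al P m / m) (p : ℝ)]
    rw [h3, h4, h5] at h2
    exact h2
  have h6 : AA P (y / p) ≤ AA P y := AA_mono P (Nat.div_le_self _ _)
  have h7 : 1 / (p : ℝ) * AA P (y / p) ≤ 1 / (p : ℝ) * AA P y :=
    mul_le_mul_of_nonneg_left h6 (by positivity)
  linarith

theorem AA_all (P : Finset ℕ) (hP : ∀ r ∈ P, r.Prime) (y : ℕ) :
    (∏ p ∈ P, (1 - 1 / (p : ℝ))) * AA ∅ y ≤ AA P y := by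
  induction P using Finset.induction_on with
  | empty => simp
  | insert p P hpP ih =>
    have hp := hP p (Finset.mem_insert_self _ _)
    have hP' : ∀ r ∈ P, r.Prime := fun r hr => hP r (Finset.mem_insert_of_mem hr)
    rw [Finset.prod_insert hpP, mul_assoc]
    have h1 : (0 : ℝ) ≤ 1 - 1 / (p : ℝ) := by
      have : (1 : ℝ) ≤ p := by exact_mod_cast hp.one_lt.le
      rw [sub_nonneg, div_le_one (by linarith)]
      exact this
    exact le_trans (mul_le_mul_of_nonneg_left (ih hP') h1) (AA_step hP' hp hpP y)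

theorem al_coprime (q m : ℕ) (hq : 1 ≤ q) :
    al (2 * q).primeFactors m = if Nat.Coprime m (2 * q) then 1 else 0 := by
  unfold al
  by_cases h : Nat.Coprime m (2 * q)
  · rw [if_pos h]
    apply Finset.prod_eq_one
    intro p hp
    rw [if_neg]
    intro hpm
    exact Nat.Prime.one_lt (Nat.prime_of_mem_primeFactors hp) |>.ne'
      (Nat.dvd_one.1 (h ▸ Nat.dvd_gcd hpm (Nat.dvd_of_mem_primeFactors hp)))
  · rw [if_neg h]
    obtain ⟨p, hp, h1, h2⟩ := Nat.Prime.not_coprime_iff_dvd.1 h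
    apply Finset.prod_eq_zero (i := p)
    · rw [Nat.mem_primeFactors]
      exact ⟨hp, h2, by omega⟩
    · rw [if_pos h1]

theorem prod_lower (q : ℕ) (hq : 1 ≤ q) :
    (Nat.totient q : ℝ) / (2 * q) ≤ ∏ p ∈ (2 * q).primeFactors, (1 - 1 / (p : ℝ)) := by
  have h0 : (0 : ℝ) < q := by exact_mod_cast hq
  have h1 : (Nat.totient q : ℝ) = q * ∏ p ∈ q.primeFactors, (1 - 1 / (p : ℝ)) := by
    have := Nat.totient_eq_mul_prod_factors q
    have h2 := congrArg (fun x : ℚ => (x : ℝ)) this
    push_cast at h2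
    rw [h2]
    simp only [one_div]
  have h3 : (Nat.totient q : ℝ) / (2 * q) = 1 / 2 * ∏ p ∈ q.primeFactors, (1 - 1 / (p : ℝ)) := by
    rw [h1]
    field_simp
  rw [h3]
  have hnn : ∀ p ∈ q.primeFactors, (0 : ℝ) ≤ 1 - 1 / (p : ℝ) := by
    intro p hp
    have : (1 : ℝ) ≤ p := by exact_mod_cast (Nat.prime_of_mem_primeFactors hp).one_lt.le
    rw [sub_nonneg, div_le_one (by linarith)]
    exact this
  have hprod : 0 ≤ ∏ p ∈ q.primeFactors, (1 - 1 / (p : ℝ)) := Finset.prod_nonneg hnn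
  have hpf : (2 * q).primeFactors = insert 2 q.primeFactors := by
    rw [Nat.primeFactors_mul (by norm_num) (by omega), Nat.Prime.primeFactors Nat.prime_two]
    rfl
  rw [hpf]
  by_cases h2 : 2 ∈ q.primeFactors
  · rw [Finset.insert_eq_of_mem h2]
    linarith
  · rw [Finset.prod_insert h2]
    push_cast
    linarith

theorem st_LLA : ST_LLA := by
  intro q y hq
  have h0 : (0 : ℝ) < q := by exact_mod_cast hq
  have ht : (0 : ℝ) < Nat.totient q := by exact_mod_cast Nat.totient_pos.2 hq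
  have h1 := AA_all (2 * q).primeFactors (fun r hr => Nat.prime_of_mem_primeFactors hr) y
  have h2 : AA ∅ y = ∑ m ∈ Icc 1 y, 1 / (m : ℝ) := by
    unfold AA al
    simp
  have h3 : AA (2 * q).primeFactors y =
      ∑ m ∈ (Icc 1 y).filter (fun m => Nat.Coprime m (2 * q)), 1 / (m : ℝ) := by
    unfold AA
    rw [Finset.sum_filter]
    apply Finset.sum_congr rfl
    intro m _
    rw [al_coprime q m hq]
    split_ifs <;> simp
  rw [h2, h3] at h1
  have h4 := prod_lower q hq
  have h5 : 0 ≤ ∑ m ∈ Icc 1 y, 1 / (m : ℝ) := Finset.sum_nonneg fun m _ => by positivity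
  have h6 : (Nat.totient q : ℝ) / (2 * q) * ∑ m ∈ Icc 1 y, 1 / (m : ℝ) ≤
      ∑ m ∈ (Icc 1 y).filter (fun m => Nat.Coprime m (2 * q)), 1 / (m : ℝ) :=
    le_trans (mul_le_mul_of_nonneg_right h4 h5) h1
  have h7 : 2 * ((q : ℝ) / (Nat.totient q : ℝ)) *
      ((Nat.totient q : ℝ) / (2 * q) * ∑ m ∈ Icc 1 y, 1 / (m : ℝ)) = ∑ m ∈ Icc 1 y, 1 / (m : ℝ) := by
    field_simp
  rw [← h7]
  exact mul_le_mul_of_nonneg_left h6 (by positivity)

end Pool.Agent.Helper4.RD
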